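import Mathlib
import Pool.Agent.Lib.MP_12eaff_co.Six

set_option autoImplicit false

namespace Pool.Agent.Results.MP_12eaff_co.CliqueSix

open Finset Pool.Agent.Lib.MP_12eaff_co

theorem result (V : Type) [Fintype V] [DecidableEq V] (G : SimpleGraph V) [DecidableRel G.Adj]
    (h9 : 9 ≤ G.maxDegree) (h6 : G.CliqueFree 6) : G.Colorable (G.maxDegree - 1) := by
  have k6 : NoK6 G := by
    intro a b c d e f h1 h2 h3 h4 h5 h7 h8 h9 h10 h11 h12 h13 h14 h15 h16
    have t := (SimpleGraph.is3Clique_triple_iff (G := G)).mpr ⟨h14, h15, h16⟩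
    exact h6 _ (((t.insert (a := c) (by simp [*])).insert (a := b) (by simp [*])).insert (a := a)
      (by simp [*]))
  obtain ⟨k, hk⟩ := Nat.exists_eq_add_of_le h9
  obtain ⟨c, c1, c2⟩ := col_all k6 k univ (fun v _ => by
    rw [← hk]
    refine le_trans (le_of_eq ?_) (G.degree_le_maxDegree v)
    rw [dg, ← SimpleGraph.card_neighborFinset_eq_degree]
    congr 1
    ext x
    simp)
  rw [SimpleGraph.colorable_iff_exists_bdd_nat_coloring]
  exact ⟨SimpleGraph.Coloring.mk c (fun {u w} h => c2 u (mem_univ _) w (mem_univ _) h),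
    fun v => by have := c1 v (mem_univ _); show c v < _; omega⟩

end Pool.Agent.Results.MP_12eaff_co.CliqueSix
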