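import Mathlib
import Pool.Agent.Lib.MP_12eaff_co.Frz.H.Fin7
import Pool.Agent.Lib.MP_12eaff_co.Frz.FD.Glue

set_option autoImplicit false

namespace Pool.Agent.Results.MP_12eaff_co.ModerateDegree

open Pool.Agent.Lib.MP_12eaff_co.Frz

theorem result (V : Type) [Fintype V] (G : SimpleGraph V) [DecidableRel G.Adj]
    (h : 16 ≤ G.maxDegree) (hc : G.CliqueFree G.maxDegree) : G.Colorable (G.maxDegree - 1) :=
  Acc2.bk_from7 (FB.uthm7 (D := 15) le_rfl) le_rfl G h hc

end Pool.Agent.Results.MP_12eaff_co.ModerateDegree
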