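import Mathlib
import Pool.Agent.Lib.MP_12eaff_co.Frz.Acc2.AD3

set_option autoImplicit false

namespace Pool.Agent.Results.MP_12eaff_co.NearClique

open Pool.Agent.Lib.MP_12eaff_co.Frz

theorem result (V : Type) [Fintype V] [DecidableEq V] (G : SimpleGraph V) [DecidableRel G.Adj]
    (h : 14 ≤ G.maxDegree) (k : G.CliqueFree (G.maxDegree - 2)) :
    G.Colorable (G.maxDegree - 1) :=
  BK.St.final (s := 2) (w := 11) (by omega) Acc2.st_13 G h k

end Pool.Agent.Results.MP_12eaff_co.NearClique
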